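import Pool.Agent.H75.OM.TD

/-!
# FI4: the theorem
-/

set_option autoImplicit false

namespace Pool.Agent.H26.ON.FI4

open Finset Pool.Agent.H6.NB Pool.Agent.H70.OQ Pool.Agent.H70.EH Pool.Agent.H70.EI
open Pool.Agent.H78.XQ Pool.Agent.H75.OM

/-- an enumeration of the triples -/
def tri (a : ℕ) : ℕ × ℕ × ℕ :=
  ((Nat.unpair a).1, (Nat.unpair (Nat.unpair a).2).1, (Nat.unpair (Nat.unpair a).2).2)

theorem tri_surj (i j k : ℕ) : ∃ a, tri a = (i, j, k) := by
  refine ⟨Nat.pair i (Nat.pair j k), ?_⟩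
  simp [tri]

theorem pf_FI4 (h1 : T_EX4) (h2 : Pool.Agent.H75.OM.T_STG) (h3 : Pool.Agent.H78.XQ.T_DC3)
    (h4 : Pool.Agent.H70.EH.T_CMP) (h5 : Pool.Agent.H78.XQ.T_EXA) (h6 : T_LOH) (h7 : T_NMA)
    (h8 : T_NMB) : T_FI4 := by
  choose sA hA using h7
  choose e sB hB using h8
  have hnum : Num e (fun k => max (sA k) (sB k)) := by
    intro k s hs
    have hsA : sA k ≤ s := (le_max_left _ _).trans hs
    have hsB : sB k ≤ s := (le_max_right _ _).trans hs
    obtain ⟨a1, a2, a3⟩ := hA k s hsA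
    exact ⟨a1, a2, a3, hB k s hsB a1⟩
  refine ⟨e, fun V W S L hS => ?_⟩
  obtain ⟨ρ, R, hsep, hact⟩ := h2 e (fun k => max (sA k) (sB k)) W S L tri hS
  obtain ⟨O, hO⟩ := h4 (Ix ⊕ ℕ) (fun t O => Sum.elim (fun i => goodX V W ρ O i)
    (fun a => (R a).ok O) t) (by
      rintro (i | a)
      · exact h3 V W ρ i
      · refine ⟨(R a).s, fun O O' hOO => ?_⟩
        simp only [Sum.elim_inr]
        unfold Rq.ok
        rw [h6 (R a).k (R a).n (R a).s O O' (R a).L hOO]) (by
      intro E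
      obtain ⟨O, hO1, hO2⟩ := h1 e _ hnum V W ρ R hsep E.toLeft E.toRight
      refine ⟨O, ?_⟩
      rintro (i | a) hi
      · exact hO1 i (Finset.mem_toLeft.mpr hi)
      · exact hO2 a (Finset.mem_toRight.mpr hi))
  refine ⟨O, fun i x => ?_, fun a hEq => ?_, fun i j k hall => ?_⟩
  · classical
    have h : goodX V W ρ O (.inl (i, x)) := hO (.inl (.inl (i, x)))
    have h' := h5 O (home (V i) i x) _ h.2
    refine ⟨fun hx => ?_, fun hx => ?_⟩
    · rw [h']
      exact if_pos (decide_eq_true hx)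
    · rw [h']
      refine if_neg ?_
      intro e
      exact hx (of_decide_eq_true e)
  · have h : goodX V W ρ O (.inr a) := hO (.inl (.inr a))
    apply h
    rw [hEq]
  · by_contra hc
    have hc' : ∀ c, ∃ n, ¬ HasP k n (S i n ^ e k + c) (L j) := by
      intro c
      by_contra h0
      refine hc ⟨c, fun n => ?_⟩
      by_contra h9
      exact h0 ⟨n, h9⟩
    obtain ⟨a, ha⟩ := tri_surj i j k
    obtain ⟨b1, b2, b3, b4⟩ := hact a i j k ha hc'
    have h : (R a).ok O := hO (.inr a)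
    have h9 := h b1
    rw [b2, b3, b4] at h9
    exact h9 (hall (R a).n)

end Pool.Agent.H26.ON.FI4
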